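import Pool.Agent.H46.CH.AT

/-!
# MP_64fb07_lc, board `chs_modules`: numbers of elements
-/

set_option autoImplicit false

namespace Pool.Agent.H79.CH

open Classical Pool.Agent.H8.VR Pool.Agent.H69.VR Pool.Agent.H46.CH

lemma num_card {A : Type} [Fintype A] (P : A → Prop) : num P = Nat.card {a // P a} := by
  unfold num
  rw [Nat.card_eq_fintype_card, Fintype.card_subtype]

lemma num_congr {A : Type} [Fintype A] {P Q : A → Prop} (h : ∀ a, P a ↔ Q a) :
    num P = num Q := by
  have : P = Q := funext fun a => propext (h a)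
  rw [this]

lemma num_false {A : Type} [Fintype A] {P : A → Prop} (h : ∀ a, ¬ P a) : num P = 0 := by
  unfold num
  rw [Finset.card_eq_zero, Finset.filter_eq_empty_iff]
  intro a _
  exact h a

lemma num_pos {A : Type} [Fintype A] {P : A → Prop} (a : A) (h : P a) : num P ≠ 0 := by
  unfold num
  intro h0
  rw [Finset.card_eq_zero, Finset.filter_eq_empty_iff] at h0
  exact h0 (Finset.mem_univ a) h

lemma num_add {A : Type} [Fintype A] {P Q R : A → Prop} (hd : ∀ a, P a → ¬ Q a)
    (h : ∀ a, R a ↔ P a ∨ Q a) : num R = num P + num Q := by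
  unfold num
  rw [← Finset.card_union_of_disjoint]
  · congr 1
    ext a
    rw [Finset.mem_union, Finset.mem_filter, Finset.mem_filter, Finset.mem_filter]
    constructor
    · rintro ⟨h1, h2⟩
      rcases (h a).1 h2 with h3 | h3
      · exact Or.inl ⟨h1, h3⟩
      · exact Or.inr ⟨h1, h3⟩
    · rintro (⟨h1, h2⟩ | ⟨h1, h2⟩)
      · exact ⟨h1, (h a).2 (Or.inl h2)⟩
      · exact ⟨h1, (h a).2 (Or.inr h2)⟩
  · rw [Finset.disjoint_left]
    intro a h1 h2
    exact hd a (Finset.mem_filter.1 h1).2 (Finset.mem_filter.1 h2).2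

lemma num_sub {A : Type} [Fintype A] (X : Set A) [Fintype {a // a ∈ X}] (P : A → Prop)
    (Q : {a // a ∈ X} → Prop) (h : ∀ x, Q x ↔ P x.1) :
    num Q = num fun a => a ∈ X ∧ P a := by
  rw [num_card, num_card]
  refine Nat.card_congr ⟨fun x => ⟨x.1.1, x.1.2, (h x.1).1 x.2⟩,
    fun a => ⟨⟨a.1, a.2.1⟩, (h _).2 a.2.2⟩, fun x => rfl, fun a => rfl⟩

end Pool.Agent.H79.CH
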