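import Pool.Agent.H79.CH.NU

/-!
# MP_64fb07_lc, board `chs_modules`: row XA
-/

set_option autoImplicit false

namespace Pool.Agent.H79.CH

open Classical Pool.Agent.H8.VR Pool.Agent.H69.VR Pool.Agent.H46.CH

theorem pf_XA (hSS : T_SS) : Pool.Agent.H46.CH.T_XA := by
  intro N Q L T O C _ _ _ _ W s c U h
  obtain ⟨A, iA, lam, th, X, E0, col, t, hsym, hgen, hE0, hidx, hcmp, hext, hc, hU⟩ := h
  have hE : ∀ a, a ∉ E0 := by
    intro a ha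
    have h1 := hU (t a)
    exact num_pos a ⟨ha, rfl⟩ h1.symm
  let _ : Fintype {a // a ∈ X} := Fintype.ofFinite _
  have hnum : ∀ σ, (c + U) σ = num fun x : {a // a ∈ X} => t x.1 = σ := by
    intro σ
    rw [hc σ, num_sub X (fun a => t a = σ) _ (fun x => Iff.rfl)]
    exact num_congr fun a => ⟨fun h => ⟨h.1, h.2.2⟩, fun h => ⟨h.1, hE a, h.2⟩⟩
  obtain ⟨E', h1, h2⟩ := hSS {a // a ∈ X} (Ix Q L T C) (fun x => t x.1) c U hnum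
  refine ⟨A, iA, lam, th, X, {a | ∃ h : a ∈ X, (⟨a, h⟩ : {a // a ∈ X}) ∈ E'}, col, t, hsym, hgen,
    ?_, hidx, ?_, ?_, ?_, ?_⟩
  · rintro a ⟨h, -⟩
    exact h
  · intro a ha _ z
    exact hcmp a ha (hE a) z
  · rintro a ⟨ha, -⟩ z
    exact ⟨_, hcmp a ha (hE a) z, rfl⟩
  · intro σ
    rw [← h1 σ, num_sub X (fun a => a ∉ {a | ∃ h : a ∈ X, (⟨a, h⟩ : {a // a ∈ X}) ∈ E'} ∧ t a = σ)
      _ (fun x => ?_)]
    constructor
    · rintro ⟨h3, h4⟩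
      exact ⟨fun ⟨_, h5⟩ => h3 h5, h4⟩
    · rintro ⟨h3, h4⟩
      exact ⟨fun h5 => h3 ⟨x.2, h5⟩, h4⟩
  · intro σ
    rw [← h2 σ, num_sub X (fun a => a ∈ {a | ∃ h : a ∈ X, (⟨a, h⟩ : {a // a ∈ X}) ∈ E'} ∧ t a = σ)
      _ (fun x => ?_)]
    · refine num_congr fun a => ?_
      constructor
      · rintro ⟨-, h3⟩
        exact h3
      · rintro ⟨⟨h3, h4⟩, h5⟩
        exact ⟨h3, ⟨h3, h4⟩, h5⟩
    · constructor
      · rintro ⟨h3, h4⟩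
        exact ⟨⟨x.2, h3⟩, h4⟩
      · rintro ⟨⟨_, h3⟩, h4⟩
        exact ⟨h3, h4⟩

end Pool.Agent.H79.CH
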