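import Pool.Agent.H79.CH.NU

/-!
# MP_64fb07_lc, board `chs_modules`: row XP
-/

set_option autoImplicit false

namespace Pool.Agent.H79.CH

open Classical Pool.Agent.H8.VR Pool.Agent.H69.VR Pool.Agent.H46.CH

theorem pf_XP : Pool.Agent.H46.CH.T_XP := by
  intro N Q L T O C _ _ _ _ _ W s q l c hpt hc
  refine ⟨Unit, inferInstance, fun _ => l, fun _ _ => Classical.arbitrary T, {()}, ∅,
    fun _ => q, fun _ => (q, (l, fun _ => W.K.cp 0)), ?_, ?_, Set.empty_subset _, ?_, ?_, ?_, ?_,
    ?_⟩
  · intro a b h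
    exact absurd (Subsingleton.elim a b) h
  · exact Sg.Gen.pt s () (fun _ => q) hpt
  · intro a _
    exact ⟨rfl, rfl⟩
  · intro a _ _ z
    refine ⟨0, 0, rfl, ?_, fun h => absurd rfl h⟩
    have h0 : kn (fun _ : Unit => l) (fun _ _ => Classical.arbitrary T) {()} a z = 0 := by
      unfold kn
      apply num_false
      rintro b ⟨-, hb, -⟩
      exact hb (Subsingleton.elim b a)
    rw [h0, mul_zero, add_zero]
  · intro a ha
    exact absurd ha (Set.notMem_empty a)
  · intro σ
    rw [hc σ]
    unfold ind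
    by_cases h : σ = (q, (l, fun _ => W.K.cp 0))
    · rw [if_pos h]
      have h1 : (num fun a : Unit => a ∈ ({()} : Set Unit) ∧ a ∉ (∅ : Set Unit) ∧
          (q, (l, fun _ : L × T => W.K.cp 0)) = σ) = num fun _ : Unit => True :=
        num_congr fun a => ⟨fun _ => trivial, fun _ =>
          ⟨Set.mem_singleton_iff.2 (Subsingleton.elim _ _), Set.notMem_empty a, h.symm⟩⟩
      rw [h1]
      unfold num
      simp
    · rw [if_neg h, num_false]
      rintro a ⟨-, -, h1⟩
      exact h h1.symm
  · intro σ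
    rw [num_false]
    · rfl
    · rintro a ⟨ha, -⟩
      exact absurd ha (Set.notMem_empty a)

end Pool.Agent.H79.CH
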